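import Pool.Agent.H67.Super

set_option autoImplicit false

namespace Pool.Agent.Results.MP_a0b46e_nt.Full

open Finset H67.Super

def t (m p k : ℕ) : ℕ :=
  (p - 1).choose k ^ 2 * ((p - 1 + k).choose k / p) ^ 2 * ((p - 1).factorial / k) ^ (2 * m + 1)

theorem term (m : ℕ) {p j : ℕ} (hp : p.Prime) (h0 : 0 < j) (hj : j < p) :
    (((p - 1).choose j : ℚ) ^ 2 * ((p - 1 + j).choose j : ℚ) ^ 2 / (j : ℚ) ^ (2 * m + 1))
        * ((p - 1).factorial : ℚ) ^ (2 * m + 1) = (p : ℚ) ^ 2 * t m p j ∧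
      (j : ZMod (p ^ 2)) ^ (2 * m + 5) * t m p j
        = ((p : ZMod (p ^ 2)) - j) ^ 2 * ((p - 1).factorial : ℕ) ^ (2 * m + 1) := by
  obtain ⟨i, rfl⟩ : ∃ i, j = i + 1 := ⟨j - 1, by omega⟩
  have hc := cop hp h0 hj
  have e2 : (p + i).choose (i + 1) * (i + 1) = p * (p + i).choose i := by
    rw [Nat.choose_succ_right_eq, show p + i - i = p by omega, mul_comm]
  obtain ⟨v, hv⟩ : p ∣ (p + i).choose (i + 1) := hc.dvd_of_dvd_mul_right ⟨_, e2⟩
  obtain ⟨d, hd⟩ : i + 1 ∣ (p - 1).factorial := Nat.dvd_factorial h0 (by omega)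
  have hp0 := hp.pos
  have ht : t m p (i + 1) = (p - 1).choose (i + 1) ^ 2 * v ^ 2 * d ^ (2 * m + 1) := by
    unfold t
    rw [show p - 1 + (i + 1) = p + i by omega, hv, hd, Nat.mul_div_cancel_left _ hp0,
      Nat.mul_div_cancel_left _ h0]
  constructor
  · rw [ht, show p - 1 + (i + 1) = p + i by omega, hv, hd]
    push_cast
    rw [mul_pow ((i : ℚ) + 1)]
    field_simp
  · have f2 : (p + i).choose i = v * (i + 1) := by
      apply Nat.eq_of_mul_eq_mul_left hp0; rw [← e2, hv]; ring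
    have h1 := congrArg (Nat.cast : ℕ → ZMod (p ^ 2)) (Nat.choose_succ_right_eq (p - 1) i)
    have h3 : ((p - 1 - i : ℕ) : ZMod (p ^ 2)) = p - 1 - i := by
      rw [Nat.cast_sub (by omega), Nat.cast_sub (by omega)]; simp
    have ab := AB hp i (by omega)
    have sq : ((-1 : ZMod (p ^ 2)) ^ i) ^ 2 = 1 := by rw [← pow_mul, mul_comm, pow_mul]; simp
    rw [← ab] at sq
    rw [f2] at sq
    rw [ht, hd]
    push_cast at h1 sq ⊢
    rw [h3] at h1
    rw [mul_pow ((i : ZMod (p ^ 2)) + 1), show 2 * m + 5 = 2 * m + 1 + 4 by ring, pow_add]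
    set A := (((p - 1).choose (i + 1) : ℕ) : ZMod (p ^ 2))
    set B := (((p - 1).choose i : ℕ) : ZMod (p ^ 2))
    set x := ((i : ZMod (p ^ 2)) + 1) ^ (2 * m + 1)
    set y := (d : ZMod (p ^ 2)) ^ (2 * m + 1)
    linear_combination (x * y * (v : ZMod (p ^ 2)) ^ 2 * (i + 1) ^ 2
      * (A * (i + 1) + B * (p - 1 - i))) * h1 + (x * y * ((p : ZMod (p ^ 2)) - 1 - i) ^ 2) * sq

theorem pair (m : ℕ) {p j : ℕ} (hp : p.Prime) (hm : 2 * m + 5 < p) (h0 : 0 < j) (hj : j < p) :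
    (t m p j : ZMod (p ^ 2)) + t m p (p - j)
      = -(((p - 1).factorial : ℕ) ^ (2 * m + 1) * (2 * m + 7)) * (p * j ^ (p - 1 - (2 * m + 4))) := by
  have h1 := (term m hp h0 hj).2
  have h2 := (term m hp (show 0 < p - j by omega) (by omega)).2
  have hu := unit_of 2 hp h0 hj
  have hu' := unit_of 2 hp (show 0 < p - j by omega) (by omega)
  rw [Nat.cast_sub hj.le] at h2 hu'
  have e := eps_pow p 2
  have h3 := eps_mul (fermat hp h0 hj)
  push_cast at h3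
  rw [show p - 1 = p - 1 - (2 * m + 4) + (2 * m + 4) by omega, pow_add] at h3
  apply ((hu.pow (2 * m + 5)).mul (hu'.pow (2 * m + 5))).mul_left_cancel
  set x := (j : ZMod (p ^ 2))
  set q := (p : ZMod (p ^ 2))
  set y := x ^ (p - 1 - (2 * m + 4))
  set F := (((p - 1).factorial : ℕ) : ZMod (p ^ 2)) ^ (2 * m + 1)
  have h4 := add_eps_pow (-x) q e (2 * m + 4)
  have o1 : (-x) ^ (2 * m + 4 + 1) = -x ^ (2 * m + 5) := Odd.neg_pow ⟨m + 2, by ring⟩ x
  have o2 : (-x) ^ (2 * m + 4) = x ^ (2 * m + 4) := Even.neg_pow ⟨m + 2, by ring⟩ x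
  rw [o1, o2, neg_add_eq_sub] at h4
  push_cast at h4
  rw [show 2 * m + 4 + 1 = 2 * m + 5 by ring] at h4
  have h5 : x ^ (2 * m + 5) = x ^ (2 * m + 4) * x := pow_succ x (2 * m + 4)
  rw [h4] at h2 ⊢
  rw [h5] at h1 h2 ⊢
  set z := x ^ (2 * m + 4)
  linear_combination (-(z * x) + (2 * m + 4 + 1) * q * z) * h1 + (z * x) * h2
    - (F * (2 * m + 7) * z * x ^ 2) * h3
    + (F * z * (-x - 2 * (2 * m + 5) * x + (2 * m + 5) * q
      + (2 * m + 7) * (2 * m + 5) * z * x * y)) * e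

theorem result (m : ℕ) : ∃ E : Finset ℕ, (∀ q ∈ E, q.Prime) ∧ ∀ p : ℕ, p.Prime → p ∉ E →
    (p : ℤ) ^ 4 ∣ (∑ k ∈ Icc 1 (p - 1),
      ((p - 1).choose k : ℚ) ^ 2 * ((p - 1 + k).choose k : ℚ) ^ 2 / (k : ℚ) ^ (2 * m + 1)).num := by
  refine ⟨(range (2 * m + 6)).filter Nat.Prime, fun q hq => (mem_filter.1 hq).2, fun p hp hE => ?_⟩
  have hm : 2 * m + 5 < p := by
    by_contra h
    exact hE (mem_filter.2 ⟨mem_range.2 (by omega), hp⟩)
  have hI : Icc 1 (p - 1) = Ico 1 p := by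
    ext x; simp only [mem_Icc, mem_Ico]; omega
  rw [hI]
  have h2 : p ^ 2 ∣ ∑ j ∈ Ico 1 p, t m p j := by
    rw [← ZMod.natCast_eq_zero_iff]
    have hu : IsUnit ((2 : ℕ) : ZMod (p ^ 2)) := unit_of 2 hp (by norm_num) (by omega)
    apply hu.mul_left_cancel
    have h4 := eps_mul (powsum (e := p - 1 - (2 * m + 4)) hp (by omega) (by omega))
    push_cast at h4 ⊢
    rw [two_mul, mul_zero]
    nth_rewrite 2 [sum_reflect]
    rw [← sum_add_distrib, sum_congr rfl (fun j hj =>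
      pair m hp hm (mem_Ico.1 hj).1 (mem_Ico.1 hj).2), ← mul_sum, ← mul_sum, h4, mul_zero]
  obtain ⟨c, hc⟩ := h2
  refine dvd_num (D := ((p - 1).factorial : ℕ) ^ (2 * m + 1)) (N := p ^ 4 * c) ?_ ?_ (Dvd.intro _ rfl)
  · apply IsCoprime.pow_right
    rw [Nat.isCoprime_iff_coprime]
    exact (Nat.coprime_factorial_iff hp.one_lt.ne').2 (by rw [hp.minFac_eq]; omega)
  · push_cast
    rw [sum_mul, sum_congr rfl (fun j hj => (term m hp (mem_Ico.1 hj).1 (mem_Ico.1 hj).2).1),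
      ← mul_sum, ← Nat.cast_sum, hc]
    push_cast; ring

end Pool.Agent.Results.MP_a0b46e_nt.Full
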